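import Pool.Agent.W120.WM.Defs
import Pool.Agent.H370R2.Local
import Pool.Agent.H370R2.DirGood

/-!
# Part T_HOR of project WM (MP_323ce2_nt): good heights for `1/ζ`
-/

set_option autoImplicit false

open Complex Filter Topology Set MeasureTheory

namespace Pool.Agent.W369.WM

open Pool.Agent.W120.WM

/-- `1/ζ` is bounded for `re s ≥ 3/2` -/
theorem zeta_inv_right : ∃ B : ℝ, 1 ≤ B ∧ ∀ s : ℂ, 3 / 2 ≤ s.re →
    riemannZeta s ≠ 0 ∧ ‖(riemannZeta s)⁻¹‖ ≤ B := by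
  have hsum : Summable (fun n : ℕ => 1 / (n : ℝ) ^ (3 / 2 : ℝ)) :=
    Real.summable_one_div_nat_rpow.2 (by norm_num)
  refine ⟨max 1 (∑' n : ℕ, 1 / (n : ℝ) ^ (3 / 2 : ℝ)), le_max_left _ _, fun s hs => ?_⟩
  have hs1 : 1 < s.re := by linarith
  have h0 : riemannZeta s ≠ 0 := riemannZeta_ne_zero_of_one_lt_re hs1
  refine ⟨h0, ?_⟩
  have h1 := ArithmeticFunction.LSeries_zeta_mul_Lseries_moebius hs1
  rw [ArithmeticFunction.LSeries_zeta_eq_riemannZeta hs1] at h1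
  have h2 := inv_eq_of_mul_eq_one_right h1
  rw [h2]
  have hterm : ∀ n : ℕ, ‖LSeries.term (fun n => ((ArithmeticFunction.moebius n : ℤ) : ℂ)) s n‖ ≤
      1 / (n : ℝ) ^ (3 / 2 : ℝ) := by
    intro n
    rw [LSeries.norm_term_eq]
    split_ifs with hn
    · positivity
    · have hn1 : (1 : ℝ) ≤ n := by exact_mod_cast Nat.one_le_iff_ne_zero.2 hn
      have hmu : ‖((ArithmeticFunction.moebius n : ℤ) : ℂ)‖ ≤ 1 := by
        rw [Complex.norm_intCast]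
        exact_mod_cast ArithmeticFunction.abs_moebius_le_one
      have hpow : (n : ℝ) ^ (3 / 2 : ℝ) ≤ (n : ℝ) ^ s.re :=
        Real.rpow_le_rpow_of_exponent_le hn1 hs
      have hpos : 0 < (n : ℝ) ^ (3 / 2 : ℝ) := by positivity
      gcongr
  unfold LSeries
  have hs2 : Summable (fun n : ℕ =>
      ‖LSeries.term (fun n => ((ArithmeticFunction.moebius n : ℤ) : ℂ)) s n‖) :=
    Summable.of_nonneg_of_le (fun _ => norm_nonneg _) hterm hsum
  exact ((norm_tsum_le_tsum_norm hs2).trans (hs2.tsum_le_tsum hterm hsum)).trans (le_max_right _ _)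

/-- lower bound for `ζ` by integrating `ζ'/ζ` -/
theorem low (M t σ : ℝ) (ht : 0 < t) (hσ : σ ≤ 3 / 2)
    (h : ∀ x ∈ Icc σ (3 / 2), riemannZeta (⟨x, t⟩ : ℂ) ≠ 0 ∧
      ‖deriv riemannZeta (⟨x, t⟩ : ℂ) / riemannZeta (⟨x, t⟩ : ℂ)‖ ≤ M) :
    ‖riemannZeta (⟨3 / 2, t⟩ : ℂ)‖ ≤ ‖riemannZeta (⟨σ, t⟩ : ℂ)‖ * Real.exp (M * (3 / 2 - σ)) := by
  have hne : ∀ x : ℝ, (⟨x, t⟩ : ℂ) ≠ 1 := by
    intro x hx
    have := congrArg Complex.im hx
    simp only [one_im] at this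
    linarith
  have hd : ∀ x : ℝ, HasDerivAt (fun x : ℝ => riemannZeta (⟨x, t⟩ : ℂ))
      (deriv riemannZeta (⟨x, t⟩ : ℂ)) x := by
    intro x
    have h1 : HasDerivAt (fun x : ℝ => (⟨x, t⟩ : ℂ)) 1 x := by
      have e : (fun x : ℝ => (⟨x, t⟩ : ℂ)) = fun x : ℝ => (x : ℂ) + t * I := by
        funext u; apply Complex.ext <;> simp
      rw [e]
      exact (Complex.ofRealCLM.hasDerivAt (x := x)).add_const _
    have := HasDerivAt.scomp (g₁ := riemannZeta) (h := fun x : ℝ => (⟨x, t⟩ : ℂ)) x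
        ((differentiableAt_riemannZeta (hne x)).hasDerivAt) h1
    rw [one_smul] at this
    exact this
  have hcont : ContinuousOn (fun x : ℝ => riemannZeta (⟨x, t⟩ : ℂ)) (Icc σ (3 / 2)) :=
    fun x _ => (hd x).continuousAt.continuousWithinAt
  have hb : ∀ x ∈ Ico σ (3 / 2), ‖deriv riemannZeta (⟨x, t⟩ : ℂ)‖ ≤
      M * ‖riemannZeta (⟨x, t⟩ : ℂ)‖ + 0 := by
    intro x hx
    obtain ⟨h1, h2⟩ := h x ⟨hx.1, hx.2.le⟩
    rw [norm_div, div_le_iff₀ (norm_pos_iff.2 h1)] at h2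
    linarith
  have := norm_le_gronwallBound_of_norm_deriv_right_le hcont
    (fun x _ => (hd x).hasDerivWithinAt) (le_refl _) hb (3 / 2) ⟨hσ, le_rfl⟩
  rwa [gronwallBound_ε0] at this

/-- good heights -/
theorem t_hor : T_HOR := by
  obtain ⟨C, hC, hgood⟩ := H370.good_height H370.good_zeta
  obtain ⟨B, hB1, hB⟩ := zeta_inv_right
  have hlB : 0 ≤ Real.log B := Real.log_nonneg hB1
  refine ⟨2 * C + Real.log B, by positivity, fun T hT => ?_⟩
  obtain ⟨U, hU, hg⟩ := hgood T hT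
  have hT0 : 0 < T := by linarith
  have hU0 : 0 < U := lt_of_lt_of_le hT0 hU.1
  have hlT : 1 ≤ Real.log T := by
    rw [Real.le_log_iff_exp_le hT0]
    have := Real.exp_one_lt_d9
    linarith
  have hlT2 : 1 ≤ Real.log T ^ 2 := one_le_pow₀ hlT
  have hpos : ∀ σ ∈ Icc (-1 / 2 : ℝ) (3 / 2), riemannZeta (⟨σ, U⟩ : ℂ) ≠ 0 ∧
      ‖(riemannZeta (⟨σ, U⟩ : ℂ))⁻¹‖ ≤
        Real.exp ((2 * C + Real.log B) * Real.log T ^ 2) := by
    intro σ hσ
    have h0 := (hg σ hσ).1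
    refine ⟨h0, ?_⟩
    have hM : 0 ≤ C * Real.log T ^ 2 := by positivity
    have h1 := low (C * Real.log T ^ 2) U σ hU0 hσ.2
      (fun x hx => hg x ⟨hσ.1.trans hx.1, hx.2⟩)
    obtain ⟨h2, h3⟩ := hB (⟨3 / 2, U⟩ : ℂ) (le_refl _)
    have h4 : Real.exp (C * Real.log T ^ 2 * (3 / 2 - σ)) ≤
        Real.exp (2 * (C * Real.log T ^ 2)) := by
      apply Real.exp_le_exp.2
      have h5 : 3 / 2 - σ ≤ 2 := by
        have := hσ.1
        linarith
      nlinarith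
    have hn0 : 0 < ‖riemannZeta (⟨σ, U⟩ : ℂ)‖ := norm_pos_iff.2 h0
    have hn1 : 0 < ‖riemannZeta (⟨3 / 2, U⟩ : ℂ)‖ := norm_pos_iff.2 h2
    have h6 : ‖riemannZeta (⟨3 / 2, U⟩ : ℂ)‖ ≤
        ‖riemannZeta (⟨σ, U⟩ : ℂ)‖ * Real.exp (2 * (C * Real.log T ^ 2)) :=
      h1.trans (mul_le_mul_of_nonneg_left h4 hn0.le)
    rw [norm_inv] at h3 ⊢
    have h7 : ‖riemannZeta (⟨σ, U⟩ : ℂ)‖⁻¹ ≤
        Real.exp (2 * (C * Real.log T ^ 2)) * ‖riemannZeta (⟨3 / 2, U⟩ : ℂ)‖⁻¹ := by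
      rw [← div_eq_mul_inv, le_div_iff₀ hn1, inv_mul_eq_div, div_le_iff₀ hn0]
      linarith
    have h8 : Real.exp (2 * (C * Real.log T ^ 2)) * ‖riemannZeta (⟨3 / 2, U⟩ : ℂ)‖⁻¹ ≤
        Real.exp (2 * (C * Real.log T ^ 2)) * B :=
      mul_le_mul_of_nonneg_left h3 (Real.exp_pos _).le
    refine h7.trans (h8.trans ?_)
    have hB0 : 0 < B := by linarith
    calc Real.exp (2 * (C * Real.log T ^ 2)) * B
        = Real.exp (2 * (C * Real.log T ^ 2)) * Real.exp (Real.log B) := by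
          rw [Real.exp_log hB0]
      _ = Real.exp (2 * (C * Real.log T ^ 2) + Real.log B) := by rw [Real.exp_add]
      _ ≤ Real.exp ((2 * C + Real.log B) * Real.log T ^ 2) := by
          apply Real.exp_le_exp.2
          nlinarith
  refine ⟨U, hU, fun σ hσ t ht => ?_⟩
  rcases (abs_eq hU0.le).1 ht with h | h
  · rw [h]
    exact hpos σ hσ
  · have e : (⟨σ, t⟩ : ℂ) = (starRingEnd ℂ) (⟨σ, U⟩ : ℂ) := by
      rw [h]
      apply Complex.ext <;> simp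
    obtain ⟨h1, h2⟩ := hpos σ hσ
    rw [e, riemannZeta_conj]
    refine ⟨?_, ?_⟩
    · intro h3
      exact h1 ((map_eq_zero (starRingEnd ℂ)).1 h3)
    · rw [norm_inv, Complex.norm_conj, ← norm_inv]
      exact h2

end Pool.Agent.W369.WM
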